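import Mathlib
import Pool.Agent.H.MP_1755e3_an.C

namespace Pool.Agent.Results.MP_1755e3_an.Cont

open Filter Topology

theorem result (f : ℝ → ℝ)
    (hrigid : ∀ c : ℝ, 0 < c → ∃ φ : EuclideanSpace ℝ (Fin 2) ≃ᵢ EuclideanSpace ℝ (Fin 2),
      φ '' Set.range (fun x : ℝ => (WithLp.toLp 2 ![x, c * f x] : EuclideanSpace ℝ (Fin 2)))
        = Set.range (fun x : ℝ => (WithLp.toLp 2 ![x, f x] : EuclideanSpace ℝ (Fin 2))))
    (h : (∃ x₀, ContinuousAt f x₀) ∨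
      ∃ g : ℕ → ℝ → ℝ, (∀ n, Continuous (g n)) ∧ ∀ x, Tendsto (fun n => g n x) atTop (𝓝 (f x))) :
    ∃ a b k : ℝ, (∀ x, f x = a + b * x) ∨ (∀ x, f x = a + b * Real.exp (k * x)) := by
  obtain ⟨x₀, hx⟩ : ∃ x₀, ContinuousAt f x₀ :=
    h.elim id fun ⟨_, hg, hl⟩ => Pool.Agent.H.MP_1755e3_an.baire_one hg hl
  exact Pool.Agent.H.MP_1755e3_an.main (Pool.Agent.H.MP_1755e3_an.rig_of_iso hrigid) hx

end Pool.Agent.Results.MP_1755e3_an.Cont
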